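import Pool.Agent.Helper46.HR.Stop

/-!
# Random numbers revealed along a filtration with random scales: from levels to times
-/

set_option autoImplicit false

namespace Pool.Agent.Helper46.HR

open Finset MeasureTheory ProbabilityTheory Filter Topology
open Pool.Agent.Helper59.RE (e norm_e e_add e_sub conj_e continuous_e e_zero norm_e_sub)
open Pool.Agent.Helper32.HP (wt)
open Pool.Agent.Helper46.HQ

/-- the ramp from `0` to `1` -/
noncomputable def ramp (u : ℝ) : ℝ := max 0 (min u 1)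

theorem ramp_nonneg (u : ℝ) : 0 ≤ ramp u := le_max_left _ _

theorem ramp_le_one (u : ℝ) : ramp u ≤ 1 := max_le zero_le_one (min_le_right _ _)

theorem wt_eq (x : ℝ) : wt x = (ramp (x + 1) - ramp x) + (ramp x - ramp (x - 1)) := by
  unfold wt ramp
  rcases le_total x (-1) with h1 | h1
  · have hm : min (x + 1) (2 - x) ≤ 0 := (min_le_left _ _).trans (by linarith)
    rw [min_eq_right (hm.trans zero_le_one), max_eq_left hm,
      min_eq_left (show x + 1 ≤ 1 by linarith), min_eq_left (show x ≤ 1 by linarith), min_eq_left (show x - 1 ≤ 1 by linarith),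
      max_eq_left (show x + 1 ≤ 0 by linarith), max_eq_left (show x ≤ 0 by linarith), max_eq_left (show x - 1 ≤ 0 by linarith)]
    ring
  rcases le_total x 0 with h2 | h2
  · rw [min_eq_left (show x + 1 ≤ 2 - x by linarith), min_eq_right (show x + 1 ≤ 1 by linarith),
      max_eq_right (show 0 ≤ x + 1 by linarith),
      min_eq_left (show x + 1 ≤ 1 by linarith), min_eq_left (show x ≤ 1 by linarith), min_eq_left (show x - 1 ≤ 1 by linarith),
      max_eq_right (show 0 ≤ x + 1 by linarith), max_eq_left (show x ≤ 0 by linarith), max_eq_left (show x - 1 ≤ 0 by linarith)]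
    ring
  rcases le_total x 1 with h3 | h3
  · rw [min_eq_left (show (1:ℝ) ≤ min (x + 1) (2 - x) from le_min (by linarith) (by linarith)), max_eq_right zero_le_one,
      min_eq_right (show 1 ≤ x + 1 by linarith), min_eq_left (show x ≤ 1 by linarith), min_eq_left (show x - 1 ≤ 1 by linarith),
      max_eq_right (zero_le_one), max_eq_right (show 0 ≤ x by linarith), max_eq_left (show x - 1 ≤ 0 by linarith)]
    ring
  rcases le_total x 2 with h4 | h4
  · rw [min_eq_right (show 2 - x ≤ x + 1 by linarith), min_eq_right (show 2 - x ≤ 1 by linarith),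
      max_eq_right (show 0 ≤ 2 - x by linarith),
      min_eq_right (show 1 ≤ x + 1 by linarith), min_eq_right (show 1 ≤ x by linarith), min_eq_left (show x - 1 ≤ 1 by linarith),
      max_eq_right (zero_le_one), max_eq_right (show 0 ≤ x - 1 by linarith)]
    ring
  · rw [min_eq_right (show 2 - x ≤ x + 1 by linarith), min_eq_right (show 2 - x ≤ 1 by linarith),
      max_eq_left (show 2 - x ≤ 0 by linarith),
      min_eq_right (show 1 ≤ x + 1 by linarith), min_eq_right (show 1 ≤ x by linarith), min_eq_right (show 1 ≤ x - 1 by linarith),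
      max_eq_right (zero_le_one)]
    ring

theorem sum_wt (x : ℝ) (L : ℕ) : ∑ j ∈ range L, wt (x - j) ≤ 2 := by
  have h1 : ∀ L : ℕ, ∑ j ∈ range L, wt (x - j) = (ramp (x + 1) - ramp (x + 1 - L)) + (ramp x - ramp (x - L)) := by
    intro L
    induction L with
    | zero => simp
    | succ L ih =>
      rw [sum_range_succ, ih, wt_eq]
      push_cast
      rw [show x - (L : ℝ) + 1 = x + 1 - L by ring, show x + 1 - ((L : ℝ) + 1) = x - L by ring,
        show x - ((L : ℝ) + 1) = x - L - 1 by ring]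
      ring
  rw [h1]
  have a1 := ramp_le_one (x + 1)
  have a2 := ramp_nonneg (x + 1 - L)
  have a3 := ramp_le_one x
  have a4 := ramp_nonneg (x - L)
  linarith

theorem wt_pos {x : ℝ} (h : wt x ≠ 0) : -1 < x ∧ x < 2 := by
  unfold wt at h
  constructor
  · by_contra h1
    exact h (max_eq_left ((min_le_right _ _).trans ((min_le_left _ _).trans (by linarith))))
  · by_contra h1
    exact h (max_eq_left ((min_le_right _ _).trans ((min_le_right _ _).trans (by linarith))))

/-- a bump: `1` on `[p, q]`, `0` outside of `(p - 1, q + 1)` -/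
noncomputable def bump (p q u : ℝ) : ℝ := max 0 (min 1 (min (u - p + 1) (q + 1 - u)))

theorem bump_nonneg (p q u : ℝ) : 0 ≤ bump p q u := le_max_left _ _

theorem bump_le_one (p q u : ℝ) : bump p q u ≤ 1 := max_le zero_le_one (min_le_left _ _)

theorem bump_eq_one {p q u : ℝ} (h1 : p ≤ u) (h2 : u ≤ q) : bump p q u = 1 := by
  unfold bump
  rw [min_eq_left (le_min (by linarith) (by linarith)), max_eq_right zero_le_one]

theorem bump_eq_zero {p q u : ℝ} (h : u ≤ p - 1 ∨ q + 1 ≤ u) : bump p q u = 0 := by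
  unfold bump
  apply max_eq_left
  rcases h with h | h
  · exact (min_le_right _ _).trans ((min_le_left _ _).trans (by linarith))
  · exact (min_le_right _ _).trans ((min_le_right _ _).trans (by linarith))

theorem bump_lip (p q u v : ℝ) : |bump p q u - bump p q v| ≤ |u - v| := by
  unfold bump
  refine (abs_max_sub_max_le_max _ _ _ _).trans (max_le (by simp) ?_)
  refine (abs_min_sub_min_le_max _ _ _ _).trans (max_le (by simp) ?_)
  refine (abs_min_sub_min_le_max _ _ _ _).trans (max_le (le_of_eq ?_) (le_of_eq ?_))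
  · congr 1
    ring
  · rw [abs_sub_comm u v]
    congr 1
    ring

section nest

variable {Ω : Type*} [mΩ : MeasurableSpace Ω] {μ : Measure Ω} {A : ℝ} {𝓕 : ℕ → MeasurableSpace Ω}
    {X : Ω → ℝ} {Xl ρ Z : ℕ → Ω → ℝ} {Ψ : ℕ → Ω → ℝ → ℂ} {b : ℝ}

/-- logarithmic scales -/
noncomputable def sc (ρ : ℕ → Ω → ℝ) (k : ℕ) (ω : Ω) : ℝ := -Real.log (ρ k ω)

/-- the sum over the times -/
noncomputable def Gs (ρ : ℕ → Ω → ℝ) (Ψ : ℕ → Ω → ℝ → ℂ) (p q : ℝ) (ω : Ω) (Y : ℝ) : ℝ :=
  ∑' k : ℕ, bump p q (Y - sc ρ k ω) * ‖Ψ k ω (Real.exp (Y - sc ρ k ω))‖ ^ 2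

/-- a jump crosses `Y` -/
def Cr (ρ : ℕ → Ω → ℝ) (p q : ℝ) (ω : Ω) (Y : ℝ) : Prop := ∃ k, sc ρ k ω + q < Y ∧ Y < sc ρ (k + 1) ω + p

theorem Nest.fin (h : Nest μ A 𝓕 X Xl ρ Z Ψ) (ω : Ω) (r : ℝ) : {k : ℕ | sc ρ k ω < r}.Finite := by
  obtain ⟨K, hK⟩ := h.hρ1 (Real.exp (-r)) (Real.exp_pos _)
  refine (Set.finite_Iio K).subset fun k hk => ?_
  by_contra h1
  have h2 : ρ k ω ≤ Real.exp (-r) := (h.hρa ω (not_lt.1 h1)).trans (hK ω)
  have h3 : Real.log (ρ k ω) ≤ -r := by
    have := Real.log_le_log (h.hρ0 k ω) h2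
    rwa [Real.log_exp] at this
  have h4 : sc ρ k ω < r := hk
  unfold sc at h4
  linarith

theorem Nest.summable (h : Nest μ A 𝓕 X Xl ρ Z Ψ) (p q : ℝ) (ω : Ω) (Y : ℝ) :
    Summable fun k : ℕ => bump p q (Y - sc ρ k ω) * ‖Ψ k ω (Real.exp (Y - sc ρ k ω))‖ ^ 2 := by
  refine summable_of_hasFiniteSupport ((h.fin ω (Y - p + 1)).subset fun k hk => ?_)
  show sc ρ k ω < Y - p + 1
  by_contra h1
  rw [Function.mem_support] at hk
  apply hk
  rw [bump_eq_zero (Or.inl (by linarith)), zero_mul]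

theorem Gs_nonneg (ρ : ℕ → Ω → ℝ) (Ψ : ℕ → Ω → ℝ → ℂ) (p q : ℝ) (ω : Ω) (Y : ℝ) : 0 ≤ Gs ρ Ψ p q ω Y :=
  tsum_nonneg fun _ => mul_nonneg (bump_nonneg _ _ _) (sq_nonneg _)

open Classical in
/-- from levels to times -/
theorem qv_le (h : Nest μ A 𝓕 X Xl ρ Z Ψ) (hb : 1 < b) (d : ℕ) (p : ℝ) (ω : Ω) (y : ℝ)
    (hy : sc ρ 0 ω + (d + 3) * Real.log b < y * Real.log b) :
    qv b d (fun j ω t => Ψ (tm ρ (1 / b ^ j) ω) ω (t * (b ^ j * ρ (tm ρ (1 / b ^ j) ω) ω))) ω y ≤
      2 * (Gs ρ Ψ p ((d + 3) * Real.log b) ω (y * Real.log b) +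
        if Cr ρ p (d * Real.log b) ω (y * Real.log b) then 1 else 0) := by
  have hb0 : 0 < b := by linarith
  have hη : 0 < Real.log b := Real.log_pos hb
  obtain ⟨G, hG⟩ : ∃ G, G = Gs ρ Ψ p ((d + 3) * Real.log b) ω (y * Real.log b) := ⟨_, rfl⟩
  obtain ⟨B, hB⟩ : ∃ B : ℝ, B = if Cr ρ p (d * Real.log b) ω (y * Real.log b) then 1 else 0 := ⟨_, rfl⟩
  rw [← hG, ← hB]
  have hG0 : 0 ≤ G := by rw [hG]; exact Gs_nonneg _ _ _ _ _ _
  have hB0 : 0 ≤ B := by
    rw [hB]
    split_ifs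
    · exact zero_le_one
    · exact le_rfl
  have h1 : ∀ j ∈ range (⌊y⌋₊ + 1), wt (y - j - (d + 1)) *
      ‖Ψ (tm ρ (1 / b ^ j) ω) ω (b ^ (y - j) * (b ^ j * ρ (tm ρ (1 / b ^ j) ω) ω))‖ ^ 2 ≤ wt (y - j - (d + 1)) * (G + B) := by
    intro j _
    by_cases hw : wt (y - j - (d + 1)) = 0
    · rw [hw, zero_mul, zero_mul]
    apply mul_le_mul_of_nonneg_left _ (wt_nonneg _)
    obtain ⟨hw1, hw2⟩ := wt_pos hw
    have hε : 0 < 1 / b ^ j := by have := pow_pos hb0 j; positivity
    obtain ⟨k, hk⟩ : ∃ k, k = tm ρ (1 / b ^ j) ω := ⟨_, rfl⟩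
    rw [← hk]
    have hρk := h.hρ0 k ω
    have hlj : Real.log (1 / b ^ j) = -(j * Real.log b) := by
      rw [one_div, Real.log_inv, Real.log_pow]
    have hs1 : j * Real.log b ≤ sc ρ k ω := by
      have h2 := h.tm_le hε ω
      rw [← hk] at h2
      have h3 := Real.log_le_log hρk h2
      rw [hlj] at h3
      unfold sc
      linarith
    have hfreq : b ^ (y - j) * (b ^ j * ρ k ω) = Real.exp (y * Real.log b - sc ρ k ω) := by
      unfold sc
      rw [sub_neg_eq_add, Real.exp_add, Real.exp_log hρk, ← mul_assoc]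
      congr 1
      rw [Real.rpow_sub hb0, Real.rpow_natCast, div_mul_cancel₀ _ (pow_pos hb0 j).ne', Real.rpow_def_of_pos hb0, mul_comm]
    rw [hfreq]
    have hk0 : k ≠ 0 := by
      intro h0
      rw [h0] at hs1
      nlinarith
    have hs2 : sc ρ (k - 1) ω < j * Real.log b := by
      have h2 := h.tm_lt hε ω (k := k - 1) (by rw [← hk]; omega)
      have h3 := Real.log_lt_log hε h2
      rw [hlj] at h3
      unfold sc
      linarith
    have hu1 : y * Real.log b - sc ρ k ω ≤ (d + 3) * Real.log b := by nlinarith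
    have hΨ1 := h.hΨ1 k ω (Real.exp (y * Real.log b - sc ρ k ω))
    have hΨ0 := norm_nonneg (Ψ k ω (Real.exp (y * Real.log b - sc ρ k ω)))
    by_cases hu2 : p ≤ y * Real.log b - sc ρ k ω
    · have h4 : ‖Ψ k ω (Real.exp (y * Real.log b - sc ρ k ω))‖ ^ 2 ≤ G := by
        rw [hG]
        have h5 := (h.summable p ((d + 3) * Real.log b) ω (y * Real.log b)).le_tsum k fun i _ =>
          mul_nonneg (bump_nonneg _ _ _) (sq_nonneg _)
        rw [bump_eq_one hu2 hu1, one_mul] at h5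
        exact h5
      linarith
    · have h4 : B = 1 := by
        rw [hB, if_pos]
        refine ⟨k - 1, ?_, ?_⟩
        · nlinarith
        · rw [show k - 1 + 1 = k by omega]
          linarith
      have h5 : ‖Ψ k ω (Real.exp (y * Real.log b - sc ρ k ω))‖ ^ 2 ≤ 1 := pow_le_one₀ hΨ0 hΨ1
      linarith
  unfold qv
  refine (sum_le_sum h1).trans ?_
  rw [← sum_mul]
  apply mul_le_mul_of_nonneg_right _ (by linarith)
  refine le_trans (le_of_eq ?_) (sum_wt (y - (d + 1)) (⌊y⌋₊ + 1))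
  refine sum_congr rfl fun j _ => ?_
  congr 1
  ring

end nest

end Pool.Agent.Helper46.HR
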