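import Pool.Agent.Helper46.HQ.Fin

/-!
# Random numbers revealed along a filtration: the law of large numbers in general form
-/

set_option autoImplicit false

namespace Pool.Agent.Helper46.HR

open Finset MeasureTheory ProbabilityTheory Filter Topology
open Pool.Agent.Helper59.RE (e norm_e e_add e_sub conj_e continuous_e e_zero norm_e_sub)
open Pool.Agent.Helper32.HP (GrL wt)
open Pool.Agent.Helper46.HQ

variable {Ω : Type*} [mΩ : MeasurableSpace Ω] {μ : Measure Ω} {b A : ℝ}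
    {m : ℕ → MeasurableSpace Ω} {X : Ω → ℝ} {Xh Z : ℕ → Ω → ℝ} {Ψ : ℕ → Ω → ℝ → ℂ}

/-- the law of large numbers -/
theorem lln_gen (hFl : Flt μ b A m X Xh Z Ψ) [IsProbabilityMeasure μ] (a : ℕ → ℕ) (ha : StrictMono a)
    (c : ℕ → ℝ) (u v : ℝ) (F Df : ℕ → ℝ → ℝ)
    (hF : ∀ n, Measurable (F n)) (hDf : ∀ n, Measurable (Df n)) (δ K B₂ c₀ : ℝ) (hδ : 0 < δ) (hK : 0 ≤ K)
    (hB : 1 ≤ B₂) (hc₀ : 0 < c₀)
    (hlin : ∀ (n : ℕ) (x y : ℝ), x ∈ Set.Icc u v → y ∈ Set.Icc u v →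
      |F n y - F n x - Df n x * (y - x)| ≤ K * B₂ ^ n * |y - x| ^ (1 + δ))
    (h1 : Real.log B₂ < (1 + δ) * c₀ * Real.log b)
    (hgr : ∀ᵐ ω ∂μ, X ω ∈ Set.Ioo u v → GrL b c₀ B₂ δ Df (X ω)) (d : ℕ) :
    ∀ᵐ ω ∂μ, X ω ∈ Set.Ioo u v → ∀ ε : ℝ, 0 < ε → ∀ᶠ N : ℕ in atTop,
      ‖∑ i ∈ range N, e (F (a i) (X ω) + c i)‖ ^ 2 ≤
        N * (∑ n ∈ range (a N), qv b d Ψ ω (Real.log |Df n (X ω)| / Real.log b)) + ε * (N : ℝ) ^ 2 := by
  have hb := hFl.hb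
  have hb0 : 0 < b := by linarith
  have hlb : 0 < Real.log b := Real.log_pos hb
  obtain ⟨L, K', θ, hL⟩ := loc_of_lin hb hFl.hA hF hDf hδ hK hB hc₀ hlin h1 a ha c
  have h2 : ∀ᵐ ω ∂μ, ∀ n₀ q : ℕ, ∀ ε : ℝ, 0 < ε → ∀ᶠ N : ℕ in atTop,
      ‖∑ n ∈ range N, dd b X Xh Ψ (fun i x => F (a i) x + c i) (fun i => Df (a i)) L
        (ww b A u v Xh (fun i => Df (a i)) (fun i => ⌊c₀ * (a i : ℝ)⌋₊)
          (fun i => kp b A δ K B₂ c₀ (a i)) d n₀ (1 + 1 / ((q : ℝ) + 1))) n ω‖ ≤ ε * N := by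
    rw [ae_all_iff]
    intro n₀
    rw [ae_all_iff]
    intro q
    have hβ : (1 : ℝ) < 1 + 1 / ((q : ℝ) + 1) := by
      have : (0 : ℝ) < 1 / ((q : ℝ) + 1) := by positivity
      linarith
    exact dd_small hFl hL hβ (ww_wgt hFl hL.hDm)
  filter_upwards [h2, hgr] with ω h3 h4 hX
  obtain ⟨⟨n₀, q, hsafe⟩, hr, hne⟩ := safe_of_gr hFl hδ hK hB hc₀ hlin hX (h4 hX) d
  have hβ : (1 : ℝ) ≤ 1 + 1 / ((q : ℝ) + 1) := by
    have : (0 : ℝ) < 1 / ((q : ℝ) + 1) := by positivity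
    linarith
  have h5 := lln_point (ω := ω) hFl hL d (h3 n₀ q) (by
    filter_upwards [eventually_ge_atTop n₀] with i hi
    exact (hsafe (a i) (hi.trans (ha.id_le i))).sub hβ ha hi) (hr.comp ha.tendsto_atTop)
    (fun i => Real.log |Df (a i) (X ω)| / Real.log b) (by
      filter_upwards [ha.tendsto_atTop.eventually hne] with i hi
      rw [Real.rpow_def_of_pos hb0, mul_div_cancel₀ _ hlb.ne', Real.exp_log (abs_pos.2 hi)])
  intro ε hε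
  filter_upwards [h5 ε hε] with N hN
  refine hN.trans (add_le_add (mul_le_mul_of_nonneg_left ?_ (Nat.cast_nonneg N)) le_rfl)
  have h7 : ∑ n ∈ range N, qv b d Ψ ω (Real.log |Df (a n) (X ω)| / Real.log b) =
      ∑ n ∈ (range N).image a, qv b d Ψ ω (Real.log |Df n (X ω)| / Real.log b) := by
    rw [sum_image fun x _ y _ hxy => ha.injective hxy]
  rw [h7]
  refine sum_le_sum_of_subset_of_nonneg ?_ fun n _ _ => qv_nonneg _ _ _ _ _
  intro n hn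
  rw [mem_image] at hn
  obtain ⟨i, hi, rfl⟩ := hn
  exact mem_range.2 (ha (mem_range.1 hi))

end Pool.Agent.Helper46.HR
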