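import Pool.Agent.Helper46.HR.Count

/-!
# Random numbers revealed along a filtration with random scales: the law of large numbers
-/

set_option autoImplicit false

namespace Pool.Agent.Helper46.HR

open Finset MeasureTheory ProbabilityTheory Filter Topology
open Pool.Agent.Helper59.RE (e norm_e e_add e_sub conj_e continuous_e e_zero norm_e_sub)
open Pool.Agent.Helper32.HP (wt GrL)
open Pool.Agent.Helper46.HQ

variable {Ω : Type*} [mΩ : MeasurableSpace Ω] {μ : Measure Ω} {A : ℝ} {𝓕 : ℕ → MeasurableSpace Ω}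
    {X : Ω → ℝ} {Xl ρ Z : ℕ → Ω → ℝ} {Ψ : ℕ → Ω → ℝ → ℂ}

open Classical in
/-- the indicator function of the crossings -/
noncomputable def cri (ρ : ℕ → Ω → ℝ) (p q : ℝ) (ω : Ω) (Y : ℝ) : ℝ := if Cr ρ p q ω Y then 1 else 0

omit mΩ in
theorem cri_nonneg (ρ : ℕ → Ω → ℝ) (p q : ℝ) (ω : Ω) (Y : ℝ) : 0 ≤ cri ρ p q ω Y := by
  unfold cri
  split_ifs
  · exact zero_le_one
  · exact le_rfl

theorem qv_le_two (b : ℝ) (d : ℕ) (Ψ : ℕ → Ω → ℝ → ℂ) (hΨ : ∀ k ω t, ‖Ψ k ω t‖ ≤ 1) (ω : Ω) (y : ℝ) : qv b d Ψ ω y ≤ 2 := by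
  unfold qv
  refine le_trans (sum_le_sum fun k _ => ?_) (sum_wt (y - (d + 1)) (⌊y⌋₊ + 1))
  have h1 : ‖Ψ k ω (b ^ (y - k))‖ ^ 2 ≤ 1 := pow_le_one₀ (norm_nonneg _) (hΨ _ _ _)
  have h2 : y - (d + 1) - k = y - k - (d + 1) := by ring
  rw [h2]
  calc wt (y - k - (d + 1)) * ‖Ψ k ω (b ^ (y - k))‖ ^ 2 ≤ wt (y - k - (d + 1)) * 1 := mul_le_mul_of_nonneg_left h1 (wt_nonneg _)
    _ = _ := mul_one _

/-- the law of large numbers: `F n` has the slopes `Df n` on `[u, v]`, `GrL` describes their growth at `X ω` -/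
theorem nest_lln (h : Nest μ A 𝓕 X Xl ρ Z Ψ) [IsProbabilityMeasure μ] (a : ℕ → ℕ) (ha : StrictMono a) (D : ℕ)
    (haD : ∀ n, a n ≤ D * (n + 1)) (c : ℕ → ℝ) (u v : ℝ) (F Df : ℕ → ℝ → ℝ)
    (hF : ∀ n, Measurable (F n)) (hDf : ∀ n, Measurable (Df n)) (δ K B₂ c₀ : ℝ) (hδ : 0 < δ) (hK : 0 ≤ K)
    (hB : 1 ≤ B₂) (hc₀ : 0 < c₀)
    (hlin : ∀ (n : ℕ) (x y : ℝ), x ∈ Set.Icc u v → y ∈ Set.Icc u v →
      |F n y - F n x - Df n x * (y - x)| ≤ K * B₂ ^ n * |y - x| ^ (1 + δ))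
    (h1 : Real.log B₂ < (1 + δ) * c₀)
    (hgr : ∀ᵐ ω ∂μ, X ω ∈ Set.Ioo u v → GrL (Real.exp 1) c₀ B₂ δ Df (X ω)) (d : ℕ) (p : ℝ) :
    ∀ᵐ ω ∂μ, X ω ∈ Set.Ioo u v → ∀ ε : ℝ, 0 < ε → ∀ᶠ N : ℕ in atTop,
      ‖∑ i ∈ range N, e (F (a i) (X ω) + c i)‖ ^ 2 ≤
        N * (2 * ∑ n ∈ range (a N), (Gs ρ Ψ p (d + 3) ω (Real.log |Df n (X ω)|) + cri ρ p d ω (Real.log |Df n (X ω)|))) +
          ε * (N : ℝ) ^ 2 := by
  have hb : 1 < Real.exp 1 := by
    have := Real.exp_one_gt_d9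
    linarith
  have hlb : Real.log (Real.exp 1) = 1 := Real.log_exp 1
  have hFl := flt_of_nest h hb
  have h2 := lln_gen hFl a ha c u v F Df hF hDf δ K B₂ c₀ hδ hK hB hc₀ hlin (by rw [hlb, mul_one]; exact h1) hgr d
  filter_upwards [h2, hgr] with ω h3 h4 hX
  have h5 := h3 hX
  obtain ⟨β, hβ, _, _, hne, hinc⟩ := h4 hX
  have hlβ : 0 < Real.log β := Real.log_pos hβ
  -- the logarithms of the slopes tend to infinity
  have hY : Tendsto (fun n => Real.log |Df n (X ω)|) atTop atTop := by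
    obtain ⟨n₁, hn₁⟩ := growth (ℓ := fun n => Real.log |Df n (X ω)|) hinc (half_lt_self hlβ)
    have h6 : Tendsto (fun n : ℕ => Real.log |Df n₁ (X ω)| + ((n : ℝ) - n₁) * (Real.log β / 2)) atTop atTop := by
      apply tendsto_atTop_add_const_left
      apply Tendsto.atTop_mul_const (by linarith)
      exact tendsto_atTop_add_const_right _ _ tendsto_natCast_atTop_atTop
    refine tendsto_atTop_mono' _ ?_ h6
    filter_upwards [eventually_ge_atTop n₁] with n hn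
    have := hn₁ n₁ n le_rfl hn
    linarith
  have h6 : ∀ᶠ n in atTop, sc ρ 0 ω + (d + 3) * Real.log (Real.exp 1) < Real.log |Df n (X ω)| / Real.log (Real.exp 1) * Real.log (Real.exp 1) := by
    filter_upwards [hY.eventually_gt_atTop (sc ρ 0 ω + (d + 3))] with n hn
    rw [hlb, mul_one, div_one, mul_one]
    exact hn
  obtain ⟨n₀, hn₀⟩ := h6.exists_forall_of_atTop
  intro ε hε
  obtain ⟨N₁, hN₁⟩ := exists_nat_gt (4 * n₀ / ε)
  filter_upwards [h5 (ε / 2) (by positivity), eventually_ge_atTop N₁] with N hN hNN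
  refine hN.trans ?_
  have h7 : ∀ n ∈ range (a N), qv (Real.exp 1) d (fun j ω t => Ψ (tm ρ (1 / Real.exp 1 ^ j) ω) ω
      (t * (Real.exp 1 ^ j * ρ (tm ρ (1 / Real.exp 1 ^ j) ω) ω))) ω (Real.log |Df n (X ω)| / Real.log (Real.exp 1)) ≤
      2 * (Gs ρ Ψ p (d + 3) ω (Real.log |Df n (X ω)|) + cri ρ p d ω (Real.log |Df n (X ω)|)) + (if n < n₀ then 2 else 0) := by
    intro n _
    have hnn : 0 ≤ 2 * (Gs ρ Ψ p (d + 3) ω (Real.log |Df n (X ω)|) + cri ρ p d ω (Real.log |Df n (X ω)|)) := by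
      have := Gs_nonneg ρ Ψ p (d + 3) ω (Real.log |Df n (X ω)|)
      have := cri_nonneg ρ p d ω (Real.log |Df n (X ω)|)
      linarith
    split_ifs with hn
    · have := qv_le_two (Real.exp 1) d (fun j ω t => Ψ (tm ρ (1 / Real.exp 1 ^ j) ω) ω
        (t * (Real.exp 1 ^ j * ρ (tm ρ (1 / Real.exp 1 ^ j) ω) ω))) (fun k ω t => h.hΨ1 _ _ _) ω
        (Real.log |Df n (X ω)| / Real.log (Real.exp 1))
      linarith
    · rw [add_zero]
      have h8 := qv_le h hb d p ω (Real.log |Df n (X ω)| / Real.log (Real.exp 1)) (hn₀ n (not_lt.1 hn))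
      rw [hlb, div_one, mul_one, mul_one, mul_one] at h8
      unfold cri
      rw [hlb, div_one]
      exact h8
  have h8 : ∑ n ∈ range (a N), (if n < n₀ then (2 : ℝ) else 0) ≤ 2 * n₀ := by
    rw [← sum_filter, sum_const, nsmul_eq_mul, mul_comm]
    have h9 : #{n ∈ range (a N) | n < n₀} ≤ n₀ := by
      calc #{n ∈ range (a N) | n < n₀} ≤ #(range n₀) := card_le_card fun x hx => by
            rw [mem_filter] at hx
            exact mem_range.2 hx.2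
        _ = n₀ := card_range _
    have h10 : ((#{n ∈ range (a N) | n < n₀} : ℕ) : ℝ) ≤ n₀ := by exact_mod_cast h9
    linarith
  have h9 := sum_le_sum h7
  rw [sum_add_distrib, ← mul_sum] at h9
  have hN0 : (0 : ℝ) ≤ N := Nat.cast_nonneg N
  have h10 : (2 : ℝ) * n₀ ≤ ε / 2 * N := by
    have h11 : (N₁ : ℝ) ≤ N := by exact_mod_cast hNN
    have h12 : 4 * (n₀ : ℝ) / ε < N := hN₁.trans_le h11
    rw [div_lt_iff₀ hε] at h12
    linarith
  have h13 := mul_le_mul_of_nonneg_left (h9.trans (add_le_add le_rfl (h8.trans h10))) hN0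
  nlinarith [h13]

end Pool.Agent.Helper46.HR
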