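import Pool.Agent.Helper46.HR.Gen

/-!
# Random numbers revealed along a filtration with random scales: stopping times
-/

set_option autoImplicit false

namespace Pool.Agent.Helper46.HR

open Finset MeasureTheory ProbabilityTheory Filter Topology
open Pool.Agent.Helper59.RE (e norm_e e_add e_sub conj_e continuous_e e_zero norm_e_sub)
open Pool.Agent.Helper46.HQ

variable {Ω : Type*}

/-- the sigma algebra of a stopping time -/
def stopM (𝓕 : ℕ → MeasurableSpace Ω) (κ : Ω → ℕ) (hκ : ∀ k, MeasurableSet[𝓕 k] {ω | κ ω = k}) : MeasurableSpace Ω where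
  MeasurableSet' s := ∀ k, MeasurableSet[𝓕 k] (s ∩ {ω | κ ω = k})
  measurableSet_empty k := by
    rw [Set.empty_inter]
    exact @MeasurableSet.empty _ (𝓕 k)
  measurableSet_compl s hs k := by
    have h1 : sᶜ ∩ {ω | κ ω = k} = {ω | κ ω = k} \ (s ∩ {ω | κ ω = k}) := by
      ext ω
      constructor
      · rintro ⟨h2, h3⟩
        exact ⟨h3, fun h4 => h2 h4.1⟩
      · rintro ⟨h2, h3⟩
        exact ⟨fun h4 => h3 ⟨h4, h2⟩, h2⟩
    rw [h1]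
    exact MeasurableSet.diff (hκ k) (hs k)
  measurableSet_iUnion f hf k := by
    rw [Set.iUnion_inter]
    exact MeasurableSet.iUnion fun i => hf i k

theorem stopM_iff {𝓕 : ℕ → MeasurableSpace Ω} {κ : Ω → ℕ} (hκ : ∀ k, MeasurableSet[𝓕 k] {ω | κ ω = k}) {s : Set Ω} :
    MeasurableSet[stopM 𝓕 κ hκ] s ↔ ∀ k, MeasurableSet[𝓕 k] (s ∩ {ω | κ ω = k}) := Iff.rfl

theorem stopM_mono {𝓕 : ℕ → MeasurableSpace Ω} (h𝓕 : Monotone 𝓕) {κ κ' : Ω → ℕ} (hκ : ∀ k, MeasurableSet[𝓕 k] {ω | κ ω = k})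
    (hκ' : ∀ k, MeasurableSet[𝓕 k] {ω | κ' ω = k}) (h : ∀ ω, κ ω ≤ κ' ω) : stopM 𝓕 κ hκ ≤ stopM 𝓕 κ' hκ' := by
  intro s hs k
  have h1 : s ∩ {ω | κ' ω = k} = ⋃ i ∈ Set.Iic k, (s ∩ {ω | κ ω = i}) ∩ {ω | κ' ω = k} := by
    ext ω
    simp only [Set.mem_iUnion, Set.mem_inter_iff]
    constructor
    · rintro ⟨h2, h3⟩
      exact ⟨κ ω, by
        have h4 : κ' ω = k := h3
        rw [Set.mem_Iic, ← h4]
        exact h ω, ⟨h2, rfl⟩, h3⟩
    · rintro ⟨i, _, ⟨h2, _⟩, h3⟩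
      exact ⟨h2, h3⟩
  rw [h1]
  refine MeasurableSet.biUnion (Set.to_countable _) fun i hi => ?_
  exact MeasurableSet.inter (h𝓕 hi _ (hs i)) (hκ' k)

theorem stopM_le [mΩ : MeasurableSpace Ω] {𝓕 : ℕ → MeasurableSpace Ω} (hle : ∀ k, 𝓕 k ≤ mΩ) {κ : Ω → ℕ}
    (hκ : ∀ k, MeasurableSet[𝓕 k] {ω | κ ω = k}) : stopM 𝓕 κ hκ ≤ mΩ := by
  intro s hs
  have h1 : s = ⋃ k, s ∩ {ω | κ ω = k} := by
    ext ω
    simp only [Set.mem_iUnion, Set.mem_inter_iff]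
    exact ⟨fun h => ⟨κ ω, h, rfl⟩, fun ⟨_, h, _⟩ => h⟩
  rw [h1]
  exact MeasurableSet.iUnion fun k => hle k _ (hs k)

/-- functions given by different formulas at different times -/
theorem stopM_fun {𝓕 : ℕ → MeasurableSpace Ω} {κ : Ω → ℕ} (hκ : ∀ k, MeasurableSet[𝓕 k] {ω | κ ω = k}) {β : Type*}
    [MeasurableSpace β] (f : ℕ → Ω → β) (hf : ∀ k, Measurable[𝓕 k] (f k)) :
    Measurable[stopM 𝓕 κ hκ] fun ω => f (κ ω) ω := by
  intro s hs k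
  have h1 : (fun ω => f (κ ω) ω) ⁻¹' s ∩ {ω | κ ω = k} = f k ⁻¹' s ∩ {ω | κ ω = k} := by
    ext ω
    constructor
    · rintro ⟨h2, h3⟩
      have h3' : κ ω = k := h3
      refine ⟨?_, h3⟩
      have h4 : f (κ ω) ω ∈ s := h2
      rw [h3'] at h4
      exact h4
    · rintro ⟨h2, h3⟩
      have h3' : κ ω = k := h3
      refine ⟨?_, h3⟩
      show f (κ ω) ω ∈ s
      rw [h3']
      exact h2
  rw [h1]
  exact MeasurableSet.inter (hf k hs) (hκ k)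

open Classical in
/-- restriction to one time -/
noncomputable def cut {β : Type*} [Zero β] (κ : Ω → ℕ) (k : ℕ) (g : Ω → β) (ω : Ω) : β := if κ ω = k then g ω else 0

theorem cut_meas {𝓕 : ℕ → MeasurableSpace Ω} {κ : Ω → ℕ} (hκ : ∀ k, MeasurableSet[𝓕 k] {ω | κ ω = k}) {β : Type*} [Zero β]
    [MeasurableSpace β] {g : Ω → β} (hg : Measurable[stopM 𝓕 κ hκ] g) (k : ℕ) : Measurable[𝓕 k] (cut κ k g) := by
  classical
  intro s hs
  have h1 : cut κ k g ⁻¹' s = (g ⁻¹' s ∩ {ω | κ ω = k}) ∪ ({ω | κ ω = k}ᶜ ∩ {_ω | (0 : β) ∈ s}) := by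
    ext ω
    simp only [Set.mem_union, Set.mem_inter_iff, Set.mem_preimage, Set.mem_compl_iff]
    unfold cut
    by_cases h : κ ω = k
    · rw [if_pos h]
      constructor
      · intro h2
        exact Or.inl ⟨h2, h⟩
      · rintro (⟨h2, _⟩ | ⟨h2, _⟩)
        · exact h2
        · exact absurd h h2
    · rw [if_neg h]
      constructor
      · intro h2
        exact Or.inr ⟨h, h2⟩
      · rintro (⟨_, h2⟩ | ⟨_, h2⟩)
        · exact absurd h2 h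
        · exact h2
  rw [h1]
  exact MeasurableSet.union (hg hs k) (MeasurableSet.inter (MeasurableSet.compl (hκ k)) (MeasurableSet.const _))

/-- a random number in a decreasing sequence of random intervals -/
structure Nest [mΩ : MeasurableSpace Ω] (μ : Measure Ω) (A : ℝ) (𝓕 : ℕ → MeasurableSpace Ω)
    (X : Ω → ℝ) (Xl ρ Z : ℕ → Ω → ℝ) (Ψ : ℕ → Ω → ℝ → ℂ) : Prop where
  hA : 0 ≤ A
  mono : Monotone 𝓕
  le : ∀ k, 𝓕 k ≤ mΩ
  hXl : ∀ k, Measurable[𝓕 k] (Xl k)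
  hρm : ∀ k, Measurable[𝓕 k] (ρ k)
  hρ0 : ∀ k ω, 0 < ρ k ω
  hρa : ∀ ω, Antitone fun k => ρ k ω
  hρ1 : ∀ ε : ℝ, 0 < ε → ∃ k, ∀ ω, ρ k ω ≤ ε
  hZ : ∀ k, Measurable (Z k)
  eq : ∀ k ω, X ω = Xl k ω + ρ k ω * Z k ω
  hZA : ∀ k ω, |Z k ω| ≤ A
  hΨm : ∀ k (t : Ω → ℝ), Measurable[𝓕 k] t → Measurable[𝓕 k] fun ω => Ψ k ω (t ω)
  hΨ1 : ∀ k ω t, ‖Ψ k ω t‖ ≤ 1
  hΨL : ∀ k ω t t', ‖Ψ k ω t - Ψ k ω t'‖ ≤ 2 * Real.pi * A * |t - t'|
  hΨs : ∀ k ω t, ‖Ψ k ω (-t)‖ = ‖Ψ k ω t‖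
  key : ∀ k (g : Ω → ℂ) (t : Ω → ℝ), Measurable[𝓕 k] g → Measurable[𝓕 k] t → (∀ ω, ‖g ω‖ ≤ 2) →
    ∫ ω, g ω * e (t ω * Z k ω) ∂μ = ∫ ω, g ω * Ψ k ω (t ω) ∂μ

section nest

variable [mΩ : MeasurableSpace Ω] {μ : Measure Ω} {A : ℝ} {𝓕 : ℕ → MeasurableSpace Ω}
    {X : Ω → ℝ} {Xl ρ Z : ℕ → Ω → ℝ} {Ψ : ℕ → Ω → ℝ → ℂ} {b : ℝ}

open Classical in
/-- the first time at which the scale is at most `ε` -/
noncomputable def tm (ρ : ℕ → Ω → ℝ) (ε : ℝ) (ω : Ω) : ℕ := if h : ∃ k, ρ k ω ≤ ε then Nat.find h else 0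

theorem Nest.ex (h : Nest μ A 𝓕 X Xl ρ Z Ψ) {ε : ℝ} (hε : 0 < ε) (ω : Ω) : ∃ k, ρ k ω ≤ ε := by
  obtain ⟨k, hk⟩ := h.hρ1 ε hε
  exact ⟨k, hk ω⟩

theorem Nest.tm_le (h : Nest μ A 𝓕 X Xl ρ Z Ψ) {ε : ℝ} (hε : 0 < ε) (ω : Ω) : ρ (tm ρ ε ω) ω ≤ ε := by
  classical
  unfold tm
  rw [dif_pos (h.ex hε ω)]
  exact Nat.find_spec (h.ex hε ω)

theorem Nest.tm_lt (h : Nest μ A 𝓕 X Xl ρ Z Ψ) {ε : ℝ} (hε : 0 < ε) (ω : Ω) {k : ℕ} (hk : k < tm ρ ε ω) : ε < ρ k ω := by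
  classical
  unfold tm at hk
  rw [dif_pos (h.ex hε ω)] at hk
  exact not_le.1 (Nat.find_min (h.ex hε ω) hk)

theorem Nest.tm_min (h : Nest μ A 𝓕 X Xl ρ Z Ψ) {ε : ℝ} (hε : 0 < ε) (ω : Ω) {k : ℕ} (hk : ρ k ω ≤ ε) : tm ρ ε ω ≤ k := by
  by_contra h1
  exact absurd hk (not_le.2 (h.tm_lt hε ω (not_le.1 h1)))

theorem Nest.tm_meas (h : Nest μ A 𝓕 X Xl ρ Z Ψ) {ε : ℝ} (hε : 0 < ε) (k : ℕ) : MeasurableSet[𝓕 k] {ω | tm ρ ε ω = k} := by
  have h1 : {ω | tm ρ ε ω = k} = {ω | ρ k ω ≤ ε} ∩ ⋂ i ∈ Set.Iio k, {ω | ε < ρ i ω} := by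
    ext ω
    simp only [Set.mem_inter_iff, Set.mem_iInter]
    constructor
    · intro h2
      have h2' : tm ρ ε ω = k := h2
      refine ⟨?_, fun i hi => ?_⟩
      · have := h.tm_le hε ω
        rw [h2'] at this
        exact this
      · exact h.tm_lt hε ω (by rw [h2']; exact hi)
    · rintro ⟨h2, h3⟩
      show tm ρ ε ω = k
      refine le_antisymm (h.tm_min hε ω h2) ?_
      by_contra h4
      have h5 := h3 _ (Set.mem_Iio.2 (not_le.1 h4))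
      exact absurd (h.tm_le hε ω) (not_le.2 h5)
  rw [h1]
  refine MeasurableSet.inter (measurableSet_le (h.hρm k) measurable_const) (MeasurableSet.biInter (Set.to_countable _) fun i hi => ?_)
  exact measurableSet_lt measurable_const ((h.hρm i).mono (h.mono (le_of_lt hi)) le_rfl)

theorem Nest.tm_mono (h : Nest μ A 𝓕 X Xl ρ Z Ψ) {ε ε' : ℝ} (hε : 0 < ε) (hεε : ε ≤ ε') (ω : Ω) : tm ρ ε' ω ≤ tm ρ ε ω :=
  h.tm_min (hε.trans_le hεε) ω ((h.tm_le hε ω).trans hεε)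

/-- the stopped filtration -/
noncomputable def sm (h : Nest μ A 𝓕 X Xl ρ Z Ψ) (hb : 0 < b) (j : ℕ) : MeasurableSpace Ω :=
  stopM 𝓕 (tm ρ (1 / b ^ j)) (h.tm_meas (by positivity))

/-- a random number in a decreasing sequence of random intervals, seen at geometric scales -/
theorem flt_of_nest [IsProbabilityMeasure μ] (h : Nest μ A 𝓕 X Xl ρ Z Ψ) (hb : 1 < b) :
    Flt μ b A (sm h (zero_lt_one.trans hb)) X (fun j ω => Xl (tm ρ (1 / b ^ j) ω) ω)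
      (fun j ω => b ^ j * ρ (tm ρ (1 / b ^ j) ω) ω * Z (tm ρ (1 / b ^ j) ω) ω)
      (fun j ω t => Ψ (tm ρ (1 / b ^ j) ω) ω (t * (b ^ j * ρ (tm ρ (1 / b ^ j) ω) ω))) := by
  have hb0 : 0 < b := by linarith
  have hbj : ∀ j : ℕ, 0 < b ^ j := fun j => pow_pos hb0 j
  have hε : ∀ j : ℕ, 0 < 1 / b ^ j := fun j => by have := hbj j; positivity
  have hρb : ∀ (j : ℕ) (ω : Ω), 0 ≤ b ^ j * ρ (tm ρ (1 / b ^ j) ω) ω ∧ b ^ j * ρ (tm ρ (1 / b ^ j) ω) ω ≤ 1 := by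
    intro j ω
    refine ⟨mul_nonneg (hbj j).le (h.hρ0 _ _).le, ?_⟩
    have := h.tm_le (hε j) ω
    rw [le_div_iff₀ (hbj j)] at this
    linarith
  refine ⟨hb, h.hA, ?_, fun j => stopM_le h.le _, fun j => ?_, fun j => ?_, fun j ω => ?_, fun j ω => ?_, fun j t ht => ?_,
    fun j ω t => h.hΨ1 _ _ _, fun j ω t t' => ?_, fun j ω t => ?_, fun j g t hg ht hg2 => ?_⟩
  · intro i j hij
    exact stopM_mono h.mono _ _ fun ω => h.tm_mono (hε j) (by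
      apply one_div_le_one_div_of_le (hbj i)
      exact pow_le_pow_right₀ hb.le hij) ω
  · exact stopM_fun _ Xl h.hXl
  · have h1 : Measurable[stopM (fun _ => mΩ) (tm ρ (1 / b ^ j)) fun k => h.le k _ (h.tm_meas (hε j) k)] fun ω =>
        b ^ j * ρ (tm ρ (1 / b ^ j) ω) ω * Z (tm ρ (1 / b ^ j) ω) ω :=
      stopM_fun _ (fun k ω => b ^ j * ρ k ω * Z k ω) fun k => (((h.hρm k).mono (h.le k) le_rfl).const_mul _).mul (h.hZ k)
    exact h1.mono (stopM_le (fun _ => le_rfl) _) le_rfl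
  · rw [h.eq (tm ρ (1 / b ^ j) ω) ω]
    have := (hbj j).ne'
    field_simp
  · rw [abs_mul, abs_of_nonneg (hρb j ω).1]
    calc b ^ j * ρ (tm ρ (1 / b ^ j) ω) ω * |Z (tm ρ (1 / b ^ j) ω) ω| ≤ 1 * A :=
          mul_le_mul (hρb j ω).2 (h.hZA _ _) (abs_nonneg _) zero_le_one
      _ = A := one_mul A
  · -- measurability of the characteristic function
    have hκ := h.tm_meas (hε j)
    intro s hs k
    have h1 : (fun ω => Ψ (tm ρ (1 / b ^ j) ω) ω (t ω * (b ^ j * ρ (tm ρ (1 / b ^ j) ω) ω))) ⁻¹' s ∩ {ω | tm ρ (1 / b ^ j) ω = k} =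
        (fun ω => Ψ k ω (cut (tm ρ (1 / b ^ j)) k t ω * (b ^ j * ρ k ω))) ⁻¹' s ∩ {ω | tm ρ (1 / b ^ j) ω = k} := by
      ext ω
      simp only [Set.mem_inter_iff, Set.mem_preimage]
      constructor
      · rintro ⟨h2, h3⟩
        have h3' : tm ρ (1 / b ^ j) ω = k := h3
        refine ⟨?_, h3⟩
        rw [h3'] at h2
        unfold cut
        rw [if_pos h3']
        exact h2
      · rintro ⟨h2, h3⟩
        have h3' : tm ρ (1 / b ^ j) ω = k := h3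
        refine ⟨?_, h3⟩
        rw [h3']
        unfold cut at h2
        rw [if_pos h3'] at h2
        exact h2
    rw [h1]
    refine MeasurableSet.inter (h.hΨm k _ ?_ hs) (hκ k)
    exact (cut_meas hκ ht k).mul ((h.hρm k).const_mul _)
  · refine (h.hΨL _ _ _ _).trans ?_
    rw [← sub_mul, abs_mul, abs_of_nonneg (hρb j ω).1]
    have hA := h.hA
    calc 2 * Real.pi * A * (|t - t'| * (b ^ j * ρ (tm ρ (1 / b ^ j) ω) ω)) ≤ 2 * Real.pi * A * (|t - t'| * 1) := by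
          gcongr
          exact (hρb j ω).2
      _ = _ := by ring
  · rw [neg_mul]
    exact h.hΨs _ _ _
  · -- the key identity
    have hκ := h.tm_meas (hε j)
    obtain ⟨K, hK⟩ := h.hρ1 _ (hε j)
    have hKle : ∀ ω, tm ρ (1 / b ^ j) ω ∈ range (K + 1) := fun ω => mem_range.2 (Nat.lt_succ_of_le (h.tm_min (hε j) ω (hK ω)))
    have hg' : ∀ k, Measurable[𝓕 k] (cut (tm ρ (1 / b ^ j)) k g) := fun k => cut_meas hκ hg k
    have ht' : ∀ k, Measurable[𝓕 k] fun ω => cut (tm ρ (1 / b ^ j)) k t ω * (b ^ j * ρ k ω) := fun k =>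
      (cut_meas hκ ht k).mul ((h.hρm k).const_mul _)
    have hg'2 : ∀ k ω, ‖cut (tm ρ (1 / b ^ j)) k g ω‖ ≤ 2 := fun k ω => by
      unfold cut
      split_ifs
      · exact hg2 ω
      · rw [norm_zero]
        exact zero_le_two
    have e1 : ∀ ω, g ω * e (t ω * (b ^ j * ρ (tm ρ (1 / b ^ j) ω) ω * Z (tm ρ (1 / b ^ j) ω) ω)) =
        ∑ k ∈ range (K + 1), cut (tm ρ (1 / b ^ j)) k g ω * e (cut (tm ρ (1 / b ^ j)) k t ω * (b ^ j * ρ k ω) * Z k ω) := by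
      intro ω
      rw [sum_eq_single_of_mem _ (hKle ω)]
      · unfold cut
        rw [if_pos rfl, if_pos rfl, mul_assoc (t ω)]
      · intro k _ hk
        unfold cut
        rw [if_neg (Ne.symm hk), zero_mul]
    have e2 : ∀ ω, g ω * Ψ (tm ρ (1 / b ^ j) ω) ω (t ω * (b ^ j * ρ (tm ρ (1 / b ^ j) ω) ω)) =
        ∑ k ∈ range (K + 1), cut (tm ρ (1 / b ^ j)) k g ω * Ψ k ω (cut (tm ρ (1 / b ^ j)) k t ω * (b ^ j * ρ k ω)) := by
      intro ω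
      rw [sum_eq_single_of_mem _ (hKle ω)]
      · unfold cut
        rw [if_pos rfl, if_pos rfl]
      · intro k _ hk
        unfold cut
        rw [if_neg (Ne.symm hk), zero_mul]
    rw [integral_congr_ae (Eventually.of_forall e1), integral_congr_ae (Eventually.of_forall e2), integral_finsetSum _ fun k _ => ?_,
      integral_finsetSum _ fun k _ => ?_]
    · exact sum_congr rfl fun k _ => h.key k _ _ (hg' k) (ht' k) (hg'2 k)
    · refine integrable_bdd (((hg' k).mono (h.le k) le_rfl).mul ((h.hΨm k _ (ht' k)).mono (h.le k) le_rfl)) (C := 2 * 1) fun ω => ?_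
      rw [norm_mul]
      exact mul_le_mul (hg'2 k ω) (h.hΨ1 _ _ _) (norm_nonneg _) zero_le_two
    · refine integrable_bdd (((hg' k).mono (h.le k) le_rfl).mul (continuous_e.measurable.comp
        (((ht' k).mono (h.le k) le_rfl).mul (h.hZ k)))) (C := 2 * 1) fun ω => ?_
      rw [norm_mul, norm_e]
      exact mul_le_mul (hg'2 k ω) le_rfl zero_le_one zero_le_two

end nest

end Pool.Agent.Helper46.HR
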